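import Pool.Agent.N833.EW.Rec
import Pool.Agent.W424.NC.NearC
import Pool.Agent.W424.KI.Fin

/-!
Project EW, part 2 (helper833): mixed four arms in a box have the exponent `5/4` if the lower
configuration is critical.
-/

set_option autoImplicit false

namespace Pool.Agent.N833.EW

open H974 Finset
open H12S hiding fl Cl
open Pool.Agent.N116.EW

/-- The near-critical four-arm bound, around any edge. -/
theorem a4c : ∃ b C : ℝ, 0 < b ∧ 0 < C ∧ A4c b C := by
  obtain ⟨κ, b, c, C, hκ, hb, hc, hC, h⟩ := Pool.Agent.W424.NC.nearS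
  refine ⟨b, C, hb, hC, ?_⟩
  intro n hn q hq k hk hkn e S hS
  obtain ⟨hw, ha⟩ := h n hn q hq
  have h0 : 0 ≤ q := by linarith [hw.lo]
  have h1 : q ≤ 1 := by linarith [hw.hi]
  obtain ⟨x, y, o⟩ := e
  have e1 := pr_A4_ball (q := q) (x := x) (y := y) (k := k) (b := o) (S := S) hS
  show PQ q S (fun F => A4 (x - k) (x + k) (y - k) (y + k) (x, y, o) ↑F) ≤ _
  rw [e1]
  exact (a4b_le h0 h1 k o).trans (ha k hk hkn).2

/-- **mixed four arms, lower configuration critical** -/
theorem xeP (_h1 : S_XEsub) (h2 : S_DICHE) : S_XE true := by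
  obtain ⟨b, C, hb, hC, hA⟩ := a4c
  obtain ⟨C3, hC3, hu⟩ := Pool.Agent.W424.KI.u3
  exact rec_XE h2 hb hC hC3 hu hA

end Pool.Agent.N833.EW
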