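import Pool.Agent.N116.EW.Stm
import Pool.Agent.H12R2.Sep.Key1

/-!
Project EW, part 2 (helper833): pairs of configurations (laws, independence, locality of the mixed
arm events) and the recursion for the mixed four arms in a box, lower configuration critical.
-/

set_option autoImplicit false

namespace Pool.Agent.N833.EW

open H974 Finset
open H12S hiding fl Cl
open Pool.Agent.N116.EW
open Pool.Agent.W424.OD (AE Cl A3v)

/-! ### Pairs of configurations -/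

theorem cw_ok {η : ℝ} (h0 : 0 ≤ η) (h1 : η ≤ 1) : Ok (cw η) := by
  rintro ⟨e, b⟩
  cases b
  · simp only [cw, Bool.false_eq_true, if_false]; exact ⟨h0, h1⟩
  · simp only [cw, if_true]; constructor <;> norm_num

theorem mem_ba {K : Finset (Edg × Bool)} {e : Edg} : e ∈ ba K ↔ (e, true) ∈ K := by
  unfold ba
  rw [Finset.mem_image]
  constructor
  · rintro ⟨⟨a, b⟩, h, h3⟩
    rw [Finset.mem_filter] at h
    obtain ⟨h1, h2⟩ := h
    simp only at h2 h3
    subst h3; subst h2; exact h1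
  · intro h
    exact ⟨(e, true), Finset.mem_filter.mpr ⟨h, rfl⟩, rfl⟩

theorem mem_fl {K : Finset (Edg × Bool)} {e : Edg} : e ∈ fl K ↔ (e, false) ∈ K := by
  unfold fl
  rw [Finset.mem_image]
  constructor
  · rintro ⟨⟨a, b⟩, h, h3⟩
    rw [Finset.mem_filter] at h
    obtain ⟨h1, h2⟩ := h
    simp only at h2 h3
    subst h3; subst h2; exact h1
  · intro h
    exact ⟨(e, false), Finset.mem_filter.mpr ⟨h, rfl⟩, rfl⟩

theorem mem_CE {S : Finset Edg} {i : Edg × Bool} : i ∈ CE S ↔ i.1 ∈ S := by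
  unfold CE
  simp

theorem CE_mono {S T : Finset Edg} (h : S ⊆ T) : CE S ⊆ CE T := by
  intro i hi
  rw [mem_CE] at hi ⊢
  exact h hi

theorem CE_disj {S T : Finset Edg} (h : Disjoint S T) : Disjoint (CE S) (CE T) := by
  rw [Finset.disjoint_left] at h ⊢
  intro i hi hi'
  rw [mem_CE] at hi hi'
  exact h hi hi'

theorem mem_lo {b : Bool} {K : Finset (Edg × Bool)} {e : Edg} :
    e ∈ lo b K ↔ (e, true) ∈ K ∧ (b = true ∨ (e, false) ∉ K) := by
  unfold lo
  cases b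
  · simp [Finset.mem_sdiff, mem_ba, mem_fl]
  · simp [mem_ba]

theorem mem_up {b : Bool} {K : Finset (Edg × Bool)} {e : Edg} :
    e ∈ up b K ↔ (e, true) ∈ K ∨ (b = true ∧ (e, false) ∈ K) := by
  unfold up
  cases b
  · simp [mem_ba]
  · simp [mem_ba, mem_fl]

theorem lo_inter (b : Bool) (K : Finset (Edg × Bool)) (T : Finset Edg) :
    lo b (K ∩ CE T) = lo b K ∩ T := by
  ext e
  simp only [mem_lo, Finset.mem_inter, mem_CE]
  tauto

theorem up_inter (b : Bool) (K : Finset (Edg × Bool)) (T : Finset Edg) :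
    up b (K ∩ CE T) = up b K ∩ T := by
  ext e
  simp only [mem_up, Finset.mem_inter, mem_CE]
  tauto

theorem lo_sub_up (b : Bool) (K : Finset (Edg × Bool)) : lo b K ⊆ up b K := by
  intro e he
  rw [mem_lo] at he
  rw [mem_up]
  exact Or.inl he.1

/-- The event depends only on the edges of `T`. -/
def Loc (T : Finset Edg) (A : Finset Edg → Finset Edg → Prop) : Prop :=
  ∀ F G, A F G ↔ A (F ∩ T) (G ∩ T)

theorem Loc.mk' {T T' : Finset Edg} {A : Finset Edg → Finset Edg → Prop} (h : Loc T A)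
    (hT : T ⊆ T') : Loc T' A := by
  intro F G
  rw [h F G, h (F ∩ T') (G ∩ T'), Finset.inter_assoc, Finset.inter_assoc,
    Finset.inter_eq_right.mpr hT]

theorem Loc.and {T T' : Finset Edg} {A B : Finset Edg → Finset Edg → Prop} (h : Loc T A)
    (h' : Loc T' B) : Loc (T ∪ T') (fun F G => A F G ∧ B F G) := by
  intro F G
  have h1 := h.mk' (T' := T ∪ T') Finset.subset_union_left F G
  have h2 := h'.mk' (T' := T ∪ T') Finset.subset_union_right F G
  exact and_congr h1 h2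

theorem PC_nonneg {b : Bool} {η : ℝ} (h0 : 0 ≤ η) (h1 : η ≤ 1) (S : Finset Edg)
    (A : Finset Edg → Finset Edg → Prop) : 0 ≤ PC b η S A := Pr_nonneg (cw_ok h0 h1) _ _

theorem PC_le_one {b : Bool} {η : ℝ} (h0 : 0 ≤ η) (h1 : η ≤ 1) (S : Finset Edg)
    (A : Finset Edg → Finset Edg → Prop) : PC b η S A ≤ 1 := Pr_le_one (cw_ok h0 h1) _ _

theorem PC_mono {b : Bool} {η : ℝ} (h0 : 0 ≤ η) (h1 : η ≤ 1) {S : Finset Edg}
    {A B : Finset Edg → Finset Edg → Prop} (h : ∀ F G, F ⊆ G → A F G → B F G) :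
    PC b η S A ≤ PC b η S B :=
  Pr_mono (cw_ok h0 h1) (fun K _ => h _ _ (lo_sub_up b K))

theorem PC_or_le {b : Bool} {η : ℝ} (h0 : 0 ≤ η) (h1 : η ≤ 1) (S : Finset Edg)
    (A B : Finset Edg → Finset Edg → Prop) :
    PC b η S (fun F G => A F G ∨ B F G) ≤ PC b η S A + PC b η S B :=
  Pr_or_le (cw_ok h0 h1) _ _ _

theorem PC_exists_le {b : Bool} {η : ℝ} (h0 : 0 ≤ η) (h1 : η ≤ 1) (S : Finset Edg)
    (J : Finset Edg) (A : Edg → Finset Edg → Finset Edg → Prop) :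
    PC b η S (fun F G => ∃ j ∈ J, A j F G) ≤ ∑ j ∈ J, PC b η S (A j) := by
  classical
  induction J using Finset.induction_on with
  | empty =>
    have : PC b η S (fun F G => ∃ j ∈ (∅ : Finset Edg), A j F G) = 0 := by
      unfold PC Pr
      rw [Ex_congr (g := fun _ => 0) (fun F _ => ind_not_of (by simp)), Ex_const]
    rw [this]; simp
  | insert a J ha ih =>
    rw [Finset.sum_insert ha]
    refine le_trans ?_ (add_le_add_right ih _)
    refine le_trans (PC_mono h0 h1 ?_) (PC_or_le h0 h1 S _ _)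
    rintro F G _ ⟨j, hj, hA⟩
    rw [Finset.mem_insert] at hj
    rcases hj with rfl | hj
    · exact Or.inl hA
    · exact Or.inr ⟨j, hj, hA⟩

theorem PC_and {b : Bool} {η : ℝ} {S T T' : Finset Edg} (hT : T ⊆ S) (hT' : T' ⊆ S)
    (hd : Disjoint T T') {A B : Finset Edg → Finset Edg → Prop} (hA : Loc T A) (hB : Loc T' B) :
    PC b η S (fun F G => A F G ∧ B F G) = PC b η S A * PC b η S B := by
  unfold PC
  refine Pr_indep (CE_mono hT) (CE_mono hT') (CE_disj hd) ?_ ?_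
  · intro K _
    rw [lo_inter, up_inter]
    exact hA _ _
  · intro K _
    rw [lo_inter, up_inter]
    exact hB _ _

/-- Marginal laws. -/
theorem Ex_marg {η p : ℝ} {c : Finset (Edg × Bool) → Finset Edg} {v1 v2 v3 : Bool} (h0 : c ∅ = ∅)
    (h1 : ∀ (a : Edg) (K : Finset (Edg × Bool)), (a, true) ∉ K → (a, false) ∉ K →
      c (insert (a, true) K) = if v1 then insert a (c K) else c K)
    (h2 : ∀ (a : Edg) (K : Finset (Edg × Bool)), (a, true) ∉ K → (a, false) ∉ K →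
      c (insert (a, false) K) = if v2 then insert a (c K) else c K)
    (h3 : ∀ (a : Edg) (K : Finset (Edg × Bool)), (a, true) ∉ K → (a, false) ∉ K →
      c (insert (a, false) (insert (a, true) K)) = if v3 then insert a (c K) else c K)
    (hp : p = (if v3 then η / 2 else 0) + (if v1 then (1 - η) / 2 else 0) +
      (if v2 then η / 2 else 0)) (T : Finset Edg) (f : Finset Edg → ℝ) :
    Ex (cw η) (CE T) (fun K => f (c K)) = Ex (fun _ => p) T f := by
  classical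
  induction T using Finset.induction_on generalizing f with
  | empty =>
    have : CE ∅ = ∅ := by unfold CE; simp
    rw [this, Ex_empty, Ex_empty, h0]
  | insert a T ha ih =>
    have e1 : CE (insert a T) = insert (a, true) (insert (a, false) (CE T)) := by
      ext ⟨x, y⟩
      simp only [mem_CE, Finset.mem_insert, Prod.mk.injEq]
      cases y <;> simp
    have m1 : (a, false) ∉ CE T := by rw [mem_CE]; exact ha
    have m2 : (a, true) ∉ insert (a, false) (CE T) := by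
      rw [Finset.mem_insert, mem_CE]
      simp [ha]
    have mt : ∀ K, K ⊆ CE T → (a, true) ∉ K := fun K hK h => ha (mem_CE.mp (hK h))
    have mf : ∀ K, K ⊆ CE T → (a, false) ∉ K := fun K hK h => ha (mem_CE.mp (hK h))
    rw [e1, Ex_insert _ m2, Ex_insert _ m1, Ex_insert _ m1, Ex_insert _ ha]
    have c1 : cw η (a, true) = 1 / 2 := by simp [cw]
    have c2 : cw η (a, false) = η := by simp [cw]
    rw [c1, c2]
    have g3 : Ex (cw η) (CE T) (fun F => f (c (insert (a, true) (insert (a, false) F)))) =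
        if v3 then Ex (fun _ => p) T (fun F => f (insert a F)) else Ex (fun _ => p) T f := by
      have : Ex (cw η) (CE T) (fun F => f (c (insert (a, true) (insert (a, false) F)))) =
          Ex (cw η) (CE T) (fun F => f (if v3 then insert a (c F) else c F)) := by
        refine Ex_congr (fun K hK => ?_)
        rw [Finset.insert_comm, h3 a K (mt K hK) (mf K hK)]
      rw [this]
      cases v3
      · simp only [Bool.false_eq_true, if_false]
        exact ih f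
      · simp only [if_true]
        exact ih (fun F => f (insert a F))
    have g1 : Ex (cw η) (CE T) (fun F => f (c (insert (a, true) F))) =
        if v1 then Ex (fun _ => p) T (fun F => f (insert a F)) else Ex (fun _ => p) T f := by
      have : Ex (cw η) (CE T) (fun F => f (c (insert (a, true) F))) =
          Ex (cw η) (CE T) (fun F => f (if v1 then insert a (c F) else c F)) := by
        refine Ex_congr (fun K hK => ?_)
        rw [h1 a K (mt K hK) (mf K hK)]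
      rw [this]
      cases v1
      · simp only [Bool.false_eq_true, if_false]
        exact ih f
      · simp only [if_true]
        exact ih (fun F => f (insert a F))
    have g2 : Ex (cw η) (CE T) (fun F => f (c (insert (a, false) F))) =
        if v2 then Ex (fun _ => p) T (fun F => f (insert a F)) else Ex (fun _ => p) T f := by
      have : Ex (cw η) (CE T) (fun F => f (c (insert (a, false) F))) =
          Ex (cw η) (CE T) (fun F => f (if v2 then insert a (c F) else c F)) := by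
        refine Ex_congr (fun K hK => ?_)
        rw [h2 a K (mt K hK) (mf K hK)]
      rw [this]
      cases v2
      · simp only [Bool.false_eq_true, if_false]
        exact ih f
      · simp only [if_true]
        exact ih (fun F => f (insert a F))
    rw [g3, g1, g2, ih f, hp]
    cases v1 <;> cases v2 <;> cases v3 <;>
      simp only [Bool.false_eq_true, if_false, if_true] <;> ring

theorem PC_lo_true {η : ℝ} (S : Finset Edg) (A : Finset Edg → Prop) :
    PC true η S (fun F _ => A F) = PQ (1 / 2) S A := by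
  unfold PC PQ Pr
  refine Ex_marg (c := lo true) (v1 := true) (v2 := false) (v3 := true) (f := fun F => ind (A F))
    ?_ ?_ ?_ ?_ ?_ S
  · ext e; simp [mem_lo]
  · intro a K ht hf
    ext e
    simp only [if_true, mem_lo, Finset.mem_insert, Prod.mk.injEq]
    tauto
  · intro a K ht hf
    ext e
    simp [mem_lo, Finset.mem_insert, Prod.mk.injEq]
  · intro a K ht hf
    ext e
    simp [mem_lo, Finset.mem_insert, Prod.mk.injEq]
  · simp only [Bool.false_eq_true, if_false, if_true]; ring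

theorem PC_up_true {η : ℝ} (S : Finset Edg) (A : Finset Edg → Prop) :
    PC true η S (fun _ G => A G) = PQ ((1 + η) / 2) S A := by
  unfold PC PQ Pr
  refine Ex_marg (c := up true) (v1 := true) (v2 := true) (v3 := true) (f := fun F => ind (A F))
    ?_ ?_ ?_ ?_ ?_ S
  · ext e; simp [mem_up]
  · intro a K ht hf
    ext e
    simp only [if_true, mem_up, Finset.mem_insert, Prod.mk.injEq]
    simp
    tauto
  · intro a K ht hf
    ext e
    simp [mem_up, Finset.mem_insert, Prod.mk.injEq]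
    tauto
  · intro a K ht hf
    ext e
    simp [mem_up, Finset.mem_insert, Prod.mk.injEq]
    tauto
  · simp only [if_true]; ring

theorem PC_up_false {η : ℝ} (S : Finset Edg) (A : Finset Edg → Prop) :
    PC false η S (fun _ G => A G) = PQ (1 / 2) S A := by
  unfold PC PQ Pr
  refine Ex_marg (c := up false) (v1 := true) (v2 := false) (v3 := true) (f := fun F => ind (A F))
    ?_ ?_ ?_ ?_ ?_ S
  · ext e; simp [mem_up]
  · intro a K ht hf
    ext e
    simp [mem_up, Finset.mem_insert, Prod.mk.injEq]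
  · intro a K ht hf
    ext e
    simp [mem_up, Finset.mem_insert, Prod.mk.injEq]
  · intro a K ht hf
    ext e
    simp [mem_up, Finset.mem_insert, Prod.mk.injEq]
  · simp only [Bool.false_eq_true, if_false, if_true]; ring

/-- The probability of a flip. -/
theorem PC_flip {b : Bool} {η : ℝ} {S : Finset Edg} {g : Edg} (hg : g ∈ S) :
    PC b η S (fun F G => g ∈ G ∧ g ∉ F) = η / 2 := by
  have e1 : PC b η S (fun F G => g ∈ G ∧ g ∉ F) =
      Pr (cw η) (CE {g}) (fun K => g ∈ up b K ∧ g ∉ lo b K) := by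
    unfold PC
    apply Pr_local (CE_mono (Finset.singleton_subset_iff.mpr hg))
    intro K _
    rw [lo_inter, up_inter]
    simp
  have e2 : CE {g} = insert (g, true) (insert (g, false) ∅) := by
    ext ⟨x, y⟩
    simp only [mem_CE, Finset.mem_insert, Prod.mk.injEq, Finset.mem_singleton]
    cases y <;> simp
  have m1 : (g, true) ∉ insert (g, false) (∅ : Finset (Edg × Bool)) := by simp
  have m2 : (g, false) ∉ (∅ : Finset (Edg × Bool)) := by simp
  rw [e1, e2]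
  unfold Pr
  rw [Ex_insert _ m1, Ex_insert _ m2, Ex_insert _ m2, Ex_empty, Ex_empty, Ex_empty, Ex_empty]
  have c1 : cw η (g, true) = 1 / 2 := by simp [cw]
  have c2 : cw η (g, false) = η := by simp [cw]
  rw [c1, c2]
  simp only [mem_up, mem_lo, Finset.mem_insert, Prod.mk.injEq]
  cases b
  · simp [ind]
    ring
  · simp [ind]
    ring

theorem Loc_flip (g : Edg) : Loc {g} (fun F G => g ∈ G ∧ g ∉ F) := by
  intro F G
  simp

/-! ### Locality -/

theorem coe_sd (F T : Finset Edg) {e : Edg} {B : Finset Edg} (hT : B \ {e} ⊆ T) :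
    ((↑(F ∩ T) : Set Edg) \ {e}) ∩ ↑B = ((↑F : Set Edg) \ {e}) ∩ ↑B := by
  ext x
  simp only [Finset.coe_inter, Set.mem_inter_iff, Set.mem_sdiff, Finset.mem_coe,
    Set.mem_singleton_iff]
  constructor
  · rintro ⟨⟨⟨h1, h2⟩, h3⟩, h4⟩
    exact ⟨⟨h1, h3⟩, h4⟩
  · rintro ⟨⟨h1, h3⟩, h4⟩
    exact ⟨⟨⟨h1, hT (Finset.mem_sdiff.mpr ⟨h4, by simpa using h3⟩)⟩, h3⟩, h4⟩

theorem XE_loc (e : Edg) (m : ℕ) :
    Loc (blk (src e) m \ {e}) (fun F G => XE e m ↑F ↑G) := by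
  intro F G
  have e1 : ∀ x, CB (src e) m ((↑(F ∩ (blk (src e) m \ {e})) : Set Edg) \ {e}) x =
      CB (src e) m ((↑F : Set Edg) \ {e}) x := by
    intro x
    unfold CB
    rw [coe_sd F _ (Finset.Subset.refl _)]
  have e2 : ∀ x, ({g | g ∈ (↑(G ∩ (blk (src e) m \ {e})) : Set Edg) \ {e} ∧
        src g ∉ CB (src e) m ((↑F : Set Edg) \ {e}) x ∧
        tgt g ∉ CB (src e) m ((↑F : Set Edg) \ {e}) x} ∩ ↑(blk (src e) m) : Set Edg) =
      {g | g ∈ (↑G : Set Edg) \ {e} ∧ src g ∉ CB (src e) m ((↑F : Set Edg) \ {e}) x ∧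
        tgt g ∉ CB (src e) m ((↑F : Set Edg) \ {e}) x} ∩ ↑(blk (src e) m) := by
    intro x
    ext g
    have := Set.ext_iff.mp (coe_sd G (blk (src e) m \ {e}) (e := e)
      (Finset.Subset.refl _)) g
    simp only [Set.mem_inter_iff] at this
    simp only [Set.mem_inter_iff, Set.mem_ofPred_eq]
    tauto
  show XE e m ↑F ↑G ↔ XE e m ↑(F ∩ (blk (src e) m \ {e})) ↑(G ∩ (blk (src e) m \ {e}))
  unfold XE
  simp only [e1, e2]

theorem XE'_loc (e : Edg) (m : ℕ) :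
    Loc (blk (src e) m \ {e}) (fun F G => XE' e m ↑F ↑G) := by
  intro F G
  unfold XE'
  have := XE_loc e m F G
  simp only at this
  simp only [this]

theorem XA_loc (c : ℤ × ℤ) (d k : ℕ) :
    Loc (blk c k \ blk c d) (fun F G => XA c d k ↑F ↑G) := by
  intro F G
  have e1 : ∀ u, Cl c d k ↑(F ∩ (blk c k \ blk c d)) u = Cl c d k ↑F u := by
    intro u
    unfold Cl AE
    rw [Finset.coe_inter, Set.inter_assoc, Set.inter_self]
  have e2 : ∀ u, ({g | g ∈ (↑(G ∩ (blk c k \ blk c d)) : Set Edg) ∧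
        src g ∉ Cl c d k ↑F u ∧ tgt g ∉ Cl c d k ↑F u} ∩ AE c d k : Set Edg) =
      {g | g ∈ (↑G : Set Edg) ∧ src g ∉ Cl c d k ↑F u ∧ tgt g ∉ Cl c d k ↑F u} ∩ AE c d k := by
    intro u
    ext g
    unfold AE
    simp only [Finset.coe_inter, Set.mem_inter_iff, Set.mem_ofPred_eq, Finset.mem_coe]
    tauto
  show XA c d k ↑F ↑G ↔ XA c d k ↑(F ∩ (blk c k \ blk c d)) ↑(G ∩ (blk c k \ blk c d))
  unfold XA
  simp only [e1, e2]

theorem XA_A3v {c : ℤ × ℤ} {d k : ℕ} {F G : Set Edg} (h : XA c d k F G) : A3v c d k F := by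
  obtain ⟨u, hu, hw, x, hx, y, hy, _, hr⟩ := h
  refine ⟨u, hu, hw, x, hx, y, hy, hr.mono ?_⟩
  rintro g ⟨⟨_, h2, h3⟩, h4⟩
  exact ⟨h4, h2, h3⟩

/-! ### Geometry of the blocks -/

theorem mem_blk_iff {c : ℤ × ℤ} {r : ℕ} {e : Edg} : e ∈ blk c r ↔
    (c.1 - r ≤ e.1 ∧ e.1 ≤ c.1 + r) ∧ (c.2 - r ≤ e.2.1 ∧ e.2.1 ≤ c.2 + r) ∧
      (if e.2.2 then e.1 < c.1 + r else e.2.1 < c.2 + r) := by
  unfold blk RE
  simp only [Finset.mem_filter, Finset.mem_product, Finset.mem_Icc, Finset.mem_univ, and_true]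
  tauto

theorem blk_sub {c c' : ℤ × ℤ} {r r' : ℕ} (h1 : (c.1 - c'.1).natAbs + r ≤ r')
    (h2 : (c.2 - c'.2).natAbs + r ≤ r') : blk c r ⊆ blk c' r' := by
  rintro ⟨x, y, b⟩ h
  rw [mem_blk_iff] at h ⊢
  simp only at h ⊢
  cases b
  · simp only [Bool.false_eq_true, if_false] at h ⊢
    omega
  · simp only [if_true] at h ⊢
    omega

theorem nrm_le {c : ℤ × ℤ} {r : ℕ} {g : Edg} (h : g ∈ blk c r) : nrm c g ≤ r := by
  rw [mem_blk_iff] at h
  unfold nrm
  omega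

theorem blk_zero (c : ℤ × ℤ) : blk c 0 = ∅ := by
  ext ⟨x, y, b⟩
  rw [mem_blk_iff]
  simp only [Finset.notMem_empty, iff_false]
  cases b
  · simp only [Bool.false_eq_true, if_false]
    push_cast
    omega
  · simp only [if_true]
    push_cast
    omega

theorem src_fst (g : Edg) : (src g).1 = g.1 := rfl
theorem src_snd (g : Edg) : (src g).2 = g.2.1 := rfl

/-- `g` itself is in the block of radius larger than the distance. -/
theorem mem_blk_of_nrm {c : ℤ × ℤ} {r : ℕ} {g : Edg} (h : nrm c g < r) : g ∈ blk c r := by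
  rw [mem_blk_iff]
  unfold nrm at h
  obtain ⟨x, y, b⟩ := g
  simp only at h ⊢
  cases b
  · simp only [Bool.false_eq_true, if_false]
    omega
  · simp only [if_true]
    omega

theorem notMem_blk_half {c : ℤ × ℤ} {g : Edg} : g ∉ blk c (nrm c g / 2) := by
  intro h
  rcases Nat.eq_zero_or_pos (nrm c g) with h0 | h0
  · rw [h0, Nat.zero_div, blk_zero] at h
    simp at h
  · have := nrm_le h
    omega

theorem disj_blk {c : ℤ × ℤ} {g : Edg} : Disjoint (blk (src g) (nrm c g / 4)) (blk c (nrm c g / 2)) := by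
  rcases Nat.eq_zero_or_pos (nrm c g) with h0 | h0
  · rw [h0, Nat.zero_div, blk_zero]
    exact Finset.disjoint_empty_left _
  · rw [Finset.disjoint_left]
    intro a h1 h2
    rw [mem_blk_iff] at h1 h2
    rw [src_fst, src_snd] at h1
    have h3 : nrm c g = max (g.1 - c.1).natAbs (g.2.1 - c.2).natAbs := rfl
    obtain ⟨D, hD⟩ : ∃ D, D = nrm c g := ⟨_, rfl⟩
    rw [← hD] at h0 h1 h2 h3
    obtain ⟨h1a, h1b, _⟩ := h1
    obtain ⟨h2a, h2b, _⟩ := h2
    omega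

theorem blk_src_sub {c : ℤ × ℤ} {g : Edg} {r r' : ℕ} (h : nrm c g + r ≤ r') :
    blk (src g) r ⊆ blk c r' := by
  apply blk_sub
  · unfold nrm at h
    rw [src_fst]; omega
  · unfold nrm at h
    rw [src_snd]; omega

theorem blk_mono {c : ℤ × ℤ} {r r' : ℕ} (h : r ≤ r') : blk c r ⊆ blk c r' := by
  apply blk_sub <;> simp <;> omega

/-- Number of the edges at a given distance. -/
theorem card_nrm (c : ℤ × ℤ) (r j : ℕ) :
    ((blk c r).filter (fun g => nrm c g = j)).card ≤ 16 * (j + 1) := by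
  classical
  have hsub : (blk c r).filter (fun g => nrm c g = j) ⊆
      (({c.1 - (j:ℤ), c.1 + (j:ℤ)} : Finset ℤ) ×ˢ
        ((Finset.Icc (c.2 - (j:ℤ)) (c.2 + (j:ℤ))) ×ˢ (Finset.univ : Finset Bool))) ∪
      ((Finset.Icc (c.1 - (j:ℤ)) (c.1 + (j:ℤ))) ×ˢ
        (({c.2 - (j:ℤ), c.2 + (j:ℤ)} : Finset ℤ) ×ˢ (Finset.univ : Finset Bool))) := by
    rintro ⟨x, y, b⟩ h
    rw [Finset.mem_filter] at h
    have h2 := h.2
    unfold nrm at h2
    simp only at h2
    simp only [Finset.mem_union, Finset.mem_product, Finset.mem_insert, Finset.mem_singleton,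
      Finset.mem_Icc, Finset.mem_univ, and_true]
    omega
  refine (Finset.card_le_card hsub).trans ((Finset.card_union_le _ _).trans ?_)
  rw [Finset.card_product, Finset.card_product, Finset.card_product, Finset.card_product]
  have c1 : ({c.1 - (j:ℤ), c.1 + (j:ℤ)} : Finset ℤ).card ≤ 2 := Finset.card_le_two
  have c2 : ({c.2 - (j:ℤ), c.2 + (j:ℤ)} : Finset ℤ).card ≤ 2 := Finset.card_le_two
  have c3 : (Finset.Icc (c.1 - (j:ℤ)) (c.1 + (j:ℤ))).card = 2 * j + 1 := by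
    rw [Int.card_Icc]; omega
  have c4 : (Finset.Icc (c.2 - (j:ℤ)) (c.2 + (j:ℤ))).card = 2 * j + 1 := by
    rw [Int.card_Icc]; omega
  rw [c3, c4]
  have c5 : (Finset.univ : Finset Bool).card = 2 := rfl
  rw [c5]
  have t1 : ({c.1 - (j:ℤ), c.1 + (j:ℤ)} : Finset ℤ).card * ((2 * j + 1) * 2) ≤
      2 * ((2 * j + 1) * 2) := Nat.mul_le_mul_right _ c1
  have t2 : (2 * j + 1) * (({c.2 - (j:ℤ), c.2 + (j:ℤ)} : Finset ℤ).card * 2) ≤
      (2 * j + 1) * (2 * 2) := Nat.mul_le_mul_left _ (Nat.mul_le_mul_right _ c2)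
  omega

theorem sum_nrm (c : ℤ × ℤ) (r : ℕ) {f : ℕ → ℝ} (hf : ∀ j, 0 ≤ f j) :
    ∑ g ∈ blk c r, f (nrm c g) ≤ ∑ j ∈ Finset.range (r + 1), 16 * ((j:ℝ) + 1) * f j := by
  classical
  rw [← Finset.sum_fiberwise_of_maps_to (s := blk c r) (t := Finset.range (r + 1))
    (g := fun g => nrm c g) (fun g hg => Finset.mem_range.mpr (Nat.lt_succ_of_le (nrm_le hg)))]
  apply Finset.sum_le_sum
  intro j _
  have e1 : ∑ g ∈ (blk c r).filter (fun g => nrm c g = j), f (nrm c g) =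
      (((blk c r).filter (fun g => nrm c g = j)).card : ℝ) * f j := by
    rw [Finset.sum_congr rfl (g := fun _ => f j), Finset.sum_const, nsmul_eq_mul]
    intro g hg
    rw [(Finset.mem_filter.mp hg).2]
  rw [e1]
  apply mul_le_mul_of_nonneg_right _ (hf j)
  have := card_nrm c r j
  have h2 : ((((blk c r).filter (fun g => nrm c g = j)).card : ℕ) : ℝ) ≤
      ((16 * (j + 1) : ℕ) : ℝ) := by exact_mod_cast this
  refine h2.trans (le_of_eq ?_)
  push_cast
  ring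

/-- `sum_{j <= r} (j+1)^(-5/6) <= 6 (r+1)^(1/6)`. -/
theorem sum_pow (r : ℕ) :
    ∑ j ∈ Finset.range (r + 1), ((j:ℝ) + 1) ^ (-(5/6) : ℝ) ≤ 6 * ((r:ℝ) + 1) ^ (1/6 : ℝ) := by
  induction r with
  | zero => simp
  | succ r ih =>
    rw [Finset.sum_range_succ]
    have key : ((r:ℝ) + 1 + 1) ^ (-(5/6) : ℝ) ≤
        6 * ((r:ℝ) + 1 + 1) ^ (1/6 : ℝ) - 6 * ((r:ℝ) + 1) ^ (1/6 : ℝ) := by
      obtain ⟨x, hx⟩ : ∃ x : ℝ, x = (r:ℝ) + 1 + 1 := ⟨_, rfl⟩
      have hr : (0:ℝ) ≤ r := Nat.cast_nonneg r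
      have hx1 : 0 < x := by rw [hx]; positivity
      have hx2 : (1:ℝ) ≤ x := by rw [hx]; linarith
      have e1 : (r:ℝ) + 1 = x * (1 + (-(1/x))) := by
        rw [hx]; field_simp; ring
      rw [← hx, e1]
      have hs : -1 ≤ -(1/x) := by
        have : 1/x ≤ 1 := by rw [div_le_one hx1]; exact hx2
        linarith
      have b1 := rpow_one_add_le_one_add_mul_self hs (p := 1/6) (by norm_num) (by norm_num)
      have h0 : (0:ℝ) ≤ 1 + (-(1/x)) := by linarith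
      rw [Real.mul_rpow hx1.le h0]
      have b2 : x ^ (1/6:ℝ) * (1 + (-(1/x))) ^ (1/6:ℝ) ≤ x ^ (1/6:ℝ) * (1 + 1/6 * (-(1/x))) :=
        mul_le_mul_of_nonneg_left b1 (by positivity)
      have e2 : x ^ (-(5/6) : ℝ) = x ^ (1/6:ℝ) * (1/x) := by
        rw [show (-(5/6) : ℝ) = 1/6 - 1 by norm_num, Real.rpow_sub_one hx1.ne']
        ring
      rw [e2]
      nlinarith [b2]
    push_cast
    linarith

/-! ### The recursion -/

/-- The three-arm bound. -/
def U3c (C3 : ℝ) : Prop := ∀ (c : ℤ × ℤ) (d k : ℕ), 1 ≤ d → d ≤ k →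
  ∀ S : Finset Edg, blk c k ⊆ S →
    PQ (1/2) S (fun F => A3v c d k ↑F) ≤ C3 * ((d:ℝ) / k) ^ (2/3 : ℝ)

/-- The near-critical four-arm bound. -/
def A4c (b C : ℝ) : Prop := ∀ n : ℕ, 1 ≤ n → ∀ q : ℝ, |q - 1/2| ≤ b * (n:ℝ) ^ (-(3/4 : ℝ)) →
  ∀ k : ℕ, 1 ≤ k → k ≤ n → ∀ (e : Edg) (S : Finset Edg), blk (src e) k ⊆ S →
    PQ q S (fun F => A4 ((src e).1 - (k:ℕ)) ((src e).1 + (k:ℕ)) ((src e).2 - (k:ℕ))
      ((src e).2 + (k:ℕ)) e ↑F) ≤ C * (k:ℝ) ^ (-(5/4 : ℝ))

theorem XE'_bd {M η : ℝ} (h0 : 0 ≤ η) (h1 : η ≤ 1) (hM : 1 ≤ M) {m : ℕ} {S : Finset Edg}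
    (ih : ∀ j : ℕ, 1 ≤ j → j < m → ∀ e' : Edg, blk (src e') j ⊆ S →
      PC true η S (fun F G => XE e' j ↑F ↑G) ≤ M * (j:ℝ) ^ (-(5/4 : ℝ)))
    {e' : Edg} {r D : ℕ} (hr : r < m) (hsub : blk (src e') r ⊆ S)
    (hD : D + 1 ≤ 8 * r ∨ D + 1 ≤ 8) :
    PC true η S (fun F G => XE' e' r ↑F ↑G) ≤ M * (((D:ℝ) + 1) / 8) ^ (-(5/4 : ℝ)) := by
  have hu : (0:ℝ) < ((D:ℝ) + 1) / 8 := by positivity
  rcases Nat.eq_zero_or_pos r with h | h
  · subst h
    have hD' : (D:ℝ) + 1 ≤ 8 := by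
      have : D + 1 ≤ 8 := by omega
      exact_mod_cast this
    have : (1:ℝ) ≤ (((D:ℝ) + 1) / 8) ^ (-(5/4 : ℝ)) :=
      Real.one_le_rpow_of_pos_of_le_one_of_nonpos hu (by linarith) (by norm_num)
    refine (PC_le_one h0 h1 _ _).trans ?_
    nlinarith
  · have e1 : PC true η S (fun F G => XE' e' r ↑F ↑G) ≤ PC true η S (fun F G => XE e' r ↑F ↑G) :=
      PC_mono h0 h1 (fun F G _ hX => hX h)
    refine e1.trans ((ih r h hr e' hsub).trans ?_)
    apply mul_le_mul_of_nonneg_left _ (by linarith)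
    apply Real.rpow_le_rpow_of_nonpos hu _ (by norm_num)
    have : D + 1 ≤ 8 * r := by omega
    have : (D:ℝ) + 1 ≤ 8 * r := by exact_mod_cast this
    linarith

theorem term_bd {M C3 η : ℝ} (h0 : 0 ≤ η) (h1 : η ≤ 1) (hM : 1 ≤ M) (hC3 : 0 < C3) (hu : U3c C3)
    {m : ℕ} (hm : 2 ≤ m) {S : Finset Edg} {e : Edg} (hS : blk (src e) m ⊆ S)
    (ih : ∀ j : ℕ, 1 ≤ j → j < m → ∀ e' : Edg, blk (src e') j ⊆ S →
      PC true η S (fun F G => XE e' j ↑F ↑G) ≤ M * (j:ℝ) ^ (-(5/4 : ℝ)))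
    {g : Edg} (hg : g ∈ blk (src e) (m / 2)) :
    PC true η S (fun F G => (g ∈ G ∧ g ∉ F) ∧ (XE' g (nrm (src e) g / 4) ↑F ↑G ∧
      (XE' e (nrm (src e) g / 2) ↑F ↑G ∧ XA (src e) (max 1 (2 * nrm (src e) g)) m ↑F ↑G))) ≤
      512 * C3 * M ^ 2 * η * (m:ℝ) ^ (-(2/3) : ℝ) * ((nrm (src e) g : ℝ) + 1) ^ (-(11/6) : ℝ) := by
  obtain ⟨D, hD⟩ : ∃ D, D = nrm (src e) g := ⟨_, rfl⟩
  have hDm : D ≤ m / 2 := by rw [hD]; exact nrm_le hg
  have s1 : ({g} : Finset Edg) ⊆ S := by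
    rw [Finset.singleton_subset_iff]
    exact hS (blk_mono (by omega) hg)
  have hT2 : blk (src g) (D / 4) ⊆ blk (src e) (max 1 (2 * D)) :=
    blk_src_sub (by rw [← hD]; omega)
  have hT2' : blk (src g) (D / 4) ⊆ blk (src e) m := blk_src_sub (by rw [← hD]; omega)
  have hT3 : blk (src e) (D / 2) ⊆ blk (src e) (max 1 (2 * D)) := blk_mono (by omega)
  have hT3' : blk (src e) (D / 2) ⊆ blk (src e) m := blk_mono (by omega)
  have hgm : g ∈ blk (src e) (max 1 (2 * D)) := mem_blk_of_nrm (by rw [← hD]; omega)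
  have hgn : g ∉ blk (src e) (D / 2) := by rw [hD]; exact notMem_blk_half
  have hdis : Disjoint (blk (src g) (D / 4)) (blk (src e) (D / 2)) := by
    rw [hD]; exact disj_blk
  rw [← hD]
  -- locality
  have l1 := Loc_flip g
  have l2 := XE'_loc g (D / 4)
  have l3 := XE'_loc e (D / 2)
  have l4 := XA_loc (src e) (max 1 (2 * D)) m
  have l34 := l3.and l4
  have l234 := l2.and l34
  have d34 : Disjoint (blk (src e) (D / 2) \ {e}) (blk (src e) m \ blk (src e) (max 1 (2 * D))) := by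
    rw [Finset.disjoint_left]
    intro a ha hb
    exact (Finset.mem_sdiff.mp hb).2 (hT3 (Finset.mem_sdiff.mp ha).1)
  have d2 : Disjoint (blk (src g) (D / 4) \ {g}) ((blk (src e) (D / 2) \ {e}) ∪
      (blk (src e) m \ blk (src e) (max 1 (2 * D)))) := by
    rw [Finset.disjoint_left]
    intro a ha hb
    have ha1 := (Finset.mem_sdiff.mp ha).1
    rcases Finset.mem_union.mp hb with hb | hb
    · exact Finset.disjoint_left.mp hdis ha1 (Finset.mem_sdiff.mp hb).1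
    · exact (Finset.mem_sdiff.mp hb).2 (hT2 ha1)
  have d1 : Disjoint ({g} : Finset Edg) ((blk (src g) (D / 4) \ {g}) ∪ ((blk (src e) (D / 2) \ {e}) ∪
      (blk (src e) m \ blk (src e) (max 1 (2 * D))))) := by
    rw [Finset.disjoint_singleton_left]
    intro hb
    rcases Finset.mem_union.mp hb with hb | hb
    · exact (Finset.mem_sdiff.mp hb).2 (Finset.mem_singleton_self g)
    · rcases Finset.mem_union.mp hb with hb | hb
      · exact hgn (Finset.mem_sdiff.mp hb).1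
      · exact (Finset.mem_sdiff.mp hb).2 hgm
  have s2 : blk (src g) (D / 4) \ {g} ⊆ S := Finset.sdiff_subset.trans (hT2'.trans hS)
  have s3 : blk (src e) (D / 2) \ {e} ⊆ S := Finset.sdiff_subset.trans (hT3'.trans hS)
  have s4 : blk (src e) m \ blk (src e) (max 1 (2 * D)) ⊆ S := Finset.sdiff_subset.trans hS
  have p1 := PC_and (b := true) (η := η) s1 (Finset.union_subset s2 (Finset.union_subset s3 s4))
    d1 l1 l234
  have p2 := PC_and (b := true) (η := η) s2 (Finset.union_subset s3 s4) d2 l2 l34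
  have p3 := PC_and (b := true) (η := η) s3 s4 d34 l3 l4
  rw [p1, p2, p3, PC_flip (s1 (Finset.mem_singleton_self g))]
  -- bounds
  obtain ⟨u, hu'⟩ : ∃ u : ℝ, u = ((D:ℝ) + 1) / 8 := ⟨_, rfl⟩
  have hu0 : 0 < u := by rw [hu']; positivity
  have b2 : PC true η S (fun F G => XE' g (D / 4) ↑F ↑G) ≤ M * u ^ (-(5/4 : ℝ)) := by
    rw [hu']
    exact XE'_bd h0 h1 hM ih (by omega) (hT2'.trans hS) (by omega)
  have b3 : PC true η S (fun F G => XE' e (D / 2) ↑F ↑G) ≤ M * u ^ (-(5/4 : ℝ)) := by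
    rw [hu']
    exact XE'_bd h0 h1 hM ih (by omega) (hT3'.trans hS) (by omega)
  have hm0 : (0:ℝ) < m := by
    have : 0 < m := by omega
    exact_mod_cast this
  have b4 : PC true η S (fun F G => XA (src e) (max 1 (2 * D)) m ↑F ↑G) ≤
      C3 * (16 * u ^ (2/3 : ℝ) * (m:ℝ) ^ (-(2/3) : ℝ)) := by
    have t1 : PC true η S (fun F G => XA (src e) (max 1 (2 * D)) m ↑F ↑G) ≤
        PC true η S (fun F _ => A3v (src e) (max 1 (2 * D)) m ↑F) :=
      PC_mono h0 h1 (fun F G _ hX => XA_A3v hX)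
    rw [PC_lo_true S (fun F => A3v (src e) (max 1 (2 * D)) m ↑F)] at t1
    refine t1.trans ((hu (src e) (max 1 (2 * D)) m (by omega) (by omega) S hS).trans ?_)
    apply mul_le_mul_of_nonneg_left _ hC3.le
    have t2 : (((max 1 (2 * D) : ℕ) : ℝ) / m) ≤ 16 * u / m := by
      apply div_le_div_of_nonneg_right _ hm0.le
      have : (max 1 (2 * D) : ℕ) ≤ 2 * (D + 1) := by omega
      have t3 : ((max 1 (2 * D) : ℕ) : ℝ) ≤ ((2 * (D + 1) : ℕ) : ℝ) := by exact_mod_cast this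
      refine t3.trans (le_of_eq ?_)
      rw [hu']; push_cast; ring
    have t4 : (((max 1 (2 * D) : ℕ) : ℝ) / m) ^ (2/3 : ℝ) ≤ (16 * u / m) ^ (2/3 : ℝ) :=
      Real.rpow_le_rpow (by positivity) t2 (by norm_num)
    refine t4.trans ?_
    rw [Real.div_rpow (by positivity) hm0.le, Real.mul_rpow (by norm_num) hu0.le,
      Real.rpow_neg hm0.le, div_eq_mul_inv]
    have t5 : (16:ℝ) ^ (2/3 : ℝ) ≤ 16 := by
      calc (16:ℝ) ^ (2/3 : ℝ) ≤ (16:ℝ) ^ (1 : ℝ) :=
            Real.rpow_le_rpow_of_exponent_le (by norm_num) (by norm_num)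
        _ = 16 := Real.rpow_one _
    have t6 : 0 ≤ u ^ (2/3 : ℝ) * ((m:ℝ) ^ (2/3 : ℝ))⁻¹ := by positivity
    calc (16:ℝ) ^ (2/3 : ℝ) * u ^ (2/3 : ℝ) * ((m:ℝ) ^ (2/3 : ℝ))⁻¹
        = (16:ℝ) ^ (2/3 : ℝ) * (u ^ (2/3 : ℝ) * ((m:ℝ) ^ (2/3 : ℝ))⁻¹) := by ring
      _ ≤ 16 * (u ^ (2/3 : ℝ) * ((m:ℝ) ^ (2/3 : ℝ))⁻¹) := mul_le_mul_of_nonneg_right t5 t6
      _ = _ := by ring
  have n3 := PC_nonneg (b := true) h0 h1 S (fun F G => XE' e (D / 2) ↑F ↑G)
  have n4 := PC_nonneg (b := true) h0 h1 S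
    (fun F G => XA (src e) (max 1 (2 * D)) m ↑F ↑G)
  have hMu : 0 ≤ M * u ^ (-(5/4 : ℝ)) := by positivity
  have c34 := mul_le_mul b3 b4 n4 hMu
  have c234 := mul_le_mul b2 c34 (mul_nonneg n3 n4) hMu
  have c1 := mul_le_mul_of_nonneg_left c234 (show 0 ≤ η / 2 by linarith)
  refine c1.trans (le_of_eq_of_le (b := (8 * C3 * M ^ 2 * η * (m:ℝ) ^ (-(2/3) : ℝ)) *
    u ^ (-(11/6) : ℝ)) ?_ ?_)
  · have e1 : u ^ (-(11/6) : ℝ) = u ^ (-(5/4 : ℝ)) * u ^ (-(5/4 : ℝ)) * u ^ (2/3 : ℝ) := by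
      rw [← Real.rpow_add hu0, ← Real.rpow_add hu0]
      norm_num
    rw [e1]; ring
  · have e2 : u ^ (-(11/6) : ℝ) ≤ 64 * ((D:ℝ) + 1) ^ (-(11/6) : ℝ) := by
      rw [hu', Real.div_rpow (by positivity) (by norm_num), Real.rpow_neg (by norm_num : (0:ℝ) ≤ 8),
        div_inv_eq_mul, mul_comm]
      apply mul_le_mul_of_nonneg_right _ (by positivity)
      calc (8:ℝ) ^ (11/6 : ℝ) ≤ (8:ℝ) ^ (2 : ℝ) :=
            Real.rpow_le_rpow_of_exponent_le (by norm_num) (by norm_num)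
        _ = 64 := by norm_num
    have : 0 ≤ 8 * C3 * M ^ 2 * η * (m:ℝ) ^ (-(2/3) : ℝ) := by positivity
    refine (mul_le_mul_of_nonneg_left e2 this).trans (le_of_eq (by ring))

/-- **the recursion** -/
theorem rec_XE (h2 : S_DICHE) {b C C3 : ℝ} (hb : 0 < b) (hC : 0 < C) (hC3 : 0 < C3)
    (hu : U3c C3) (hA : A4c b C) : S_XE true := by
  obtain ⟨M, hMd⟩ : ∃ M : ℝ, M = max 1 (18 * C) := ⟨_, rfl⟩
  have hM : 1 ≤ M := by rw [hMd]; exact le_max_left _ _
  have hM2 : 18 * C ≤ M := by rw [hMd]; exact le_max_right _ _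
  obtain ⟨K, hK⟩ : ∃ K : ℝ, K = 49152 * C3 := ⟨_, rfl⟩
  have hK0 : 0 < K := by rw [hK]; positivity
  obtain ⟨t, ht⟩ : ∃ t : ℝ, t = min (2 * b) (1 / (2 * K * M)) := ⟨_, rfl⟩
  have ht0 : 0 < t := by rw [ht]; exact lt_min (by positivity) (by positivity)
  have htb : t ≤ 2 * b := by rw [ht]; exact min_le_left _ _
  have htK : t ≤ 1 / (2 * K * M) := by rw [ht]; exact min_le_right _ _
  refine ⟨M, t, by linarith, ht0, ?_⟩
  intro n η hn h0 h1 hη e m hm1 hmn S hS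
  have hn0 : (0:ℝ) < n := by exact_mod_cast hn
  have hnp : 0 < (n:ℝ) ^ (3/4 : ℝ) := by positivity
  induction m using Nat.strong_induction_on generalizing e S with
  | _ m IH =>
  rcases Nat.lt_or_ge m 2 with hm | hm
  · have : m = 1 := by omega
    subst this
    refine (PC_le_one h0 h1 _ _).trans ?_
    simp [hM]
  have hm0 : (0:ℝ) < m := by
    have : 0 < m := by omega
    exact_mod_cast this
  have ih : ∀ j : ℕ, 1 ≤ j → j < m → ∀ e' : Edg, blk (src e') j ⊆ S →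
      PC true η S (fun F G => XE e' j ↑F ↑G) ≤ M * (j:ℝ) ^ (-(5/4 : ℝ)) := by
    intro j hj1 hjm e' hS'
    exact IH j hjm e' hj1 (by omega) S hS'
  -- the decomposition
  have q1 : PC true η S (fun F G => XE e m ↑F ↑G) ≤
      PC true η S (fun _ G => A4 ((src e).1 - (m / 2 : ℕ)) ((src e).1 + (m / 2 : ℕ))
        ((src e).2 - (m / 2 : ℕ)) ((src e).2 + (m / 2 : ℕ)) e ↑G) +
      PC true η S (fun F G => ∃ g ∈ blk (src e) (m / 2), (g ∈ G ∧ g ∉ F) ∧
        (XE' g (nrm (src e) g / 4) ↑F ↑G ∧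
      (XE' e (nrm (src e) g / 2) ↑F ↑G ∧ XA (src e) (max 1 (2 * nrm (src e) g)) m ↑F ↑G))) := by
    refine le_trans (PC_mono h0 h1 ?_) (PC_or_le h0 h1 S _ _)
    intro F G hFG hX
    rcases h2 e m ↑F ↑G hm (Finset.coe_subset.mpr hFG) hX with h | ⟨g, g1, g2, g3, g4, g5, g6, g7⟩
    · exact Or.inl h
    · exact Or.inr ⟨g, g1, ⟨by exact_mod_cast g3, by exact_mod_cast g4⟩, g5, g6, g7⟩
  -- four arms
  have q2 : PC true η S (fun _ G => A4 ((src e).1 - (m / 2 : ℕ)) ((src e).1 + (m / 2 : ℕ))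
        ((src e).2 - (m / 2 : ℕ)) ((src e).2 + (m / 2 : ℕ)) e ↑G) ≤
      9 * C * (m:ℝ) ^ (-(5/4 : ℝ)) := by
    rw [PC_up_true S (fun G => A4 ((src e).1 - (m / 2 : ℕ)) ((src e).1 + (m / 2 : ℕ))
        ((src e).2 - (m / 2 : ℕ)) ((src e).2 + (m / 2 : ℕ)) e ↑G)]
    have hq : |(1 + η) / 2 - 1/2| ≤ b * (n:ℝ) ^ (-(3/4 : ℝ)) := by
      rw [show (1 + η) / 2 - 1/2 = η / 2 by ring, abs_of_nonneg (by linarith),
        Real.rpow_neg hn0.le, ← div_eq_mul_inv, le_div_iff₀ hnp]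
      nlinarith
    refine (hA n hn _ hq (m / 2) (by omega) (by omega) e S ((blk_mono (by omega)).trans hS)).trans ?_
    have hm3 : (m:ℝ) / 3 ≤ ((m / 2 : ℕ) : ℝ) := by
      have : m ≤ 3 * (m / 2) := by omega
      have : (m:ℝ) ≤ 3 * ((m / 2 : ℕ) : ℝ) := by exact_mod_cast this
      linarith
    have t1 : ((m / 2 : ℕ) : ℝ) ^ (-(5/4 : ℝ)) ≤ ((m:ℝ) / 3) ^ (-(5/4 : ℝ)) :=
      Real.rpow_le_rpow_of_nonpos (by positivity) hm3 (by norm_num)
    have t2 : ((m:ℝ) / 3) ^ (-(5/4 : ℝ)) ≤ 9 * (m:ℝ) ^ (-(5/4 : ℝ)) := by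
      rw [Real.div_rpow hm0.le (by norm_num), Real.rpow_neg (by norm_num : (0:ℝ) ≤ 3),
        div_inv_eq_mul, mul_comm]
      apply mul_le_mul_of_nonneg_right _ (by positivity)
      calc (3:ℝ) ^ (5/4 : ℝ) ≤ (3:ℝ) ^ (2 : ℝ) :=
            Real.rpow_le_rpow_of_exponent_le (by norm_num) (by norm_num)
        _ = 9 := by norm_num
    calc C * ((m / 2 : ℕ) : ℝ) ^ (-(5/4 : ℝ)) ≤ C * (9 * (m:ℝ) ^ (-(5/4 : ℝ))) :=
          mul_le_mul_of_nonneg_left (t1.trans t2) hC.le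
      _ = _ := by ring
  -- the flipped edges
  have q3 : PC true η S (fun F G => ∃ g ∈ blk (src e) (m / 2), (g ∈ G ∧ g ∉ F) ∧
        (XE' g (nrm (src e) g / 4) ↑F ↑G ∧
      (XE' e (nrm (src e) g / 2) ↑F ↑G ∧ XA (src e) (max 1 (2 * nrm (src e) g)) m ↑F ↑G))) ≤
      K * M ^ 2 * η * (m:ℝ) ^ (-(1/2) : ℝ) := by
    refine (PC_exists_le h0 h1 S (blk (src e) (m / 2)) _).trans ?_
    have r1 : ∀ g ∈ blk (src e) (m / 2), PC true η S (fun F G => (g ∈ G ∧ g ∉ F) ∧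
        (XE' g (nrm (src e) g / 4) ↑F ↑G ∧
      (XE' e (nrm (src e) g / 2) ↑F ↑G ∧ XA (src e) (max 1 (2 * nrm (src e) g)) m ↑F ↑G))) ≤
        (fun j : ℕ => 512 * C3 * M ^ 2 * η * (m:ℝ) ^ (-(2/3) : ℝ) *
          ((j : ℝ) + 1) ^ (-(11/6) : ℝ)) (nrm (src e) g) := by
      intro g hg
      exact term_bd h0 h1 hM hC3 hu hm hS ih hg
    refine (Finset.sum_le_sum r1).trans ((sum_nrm (src e) (m / 2)
      (f := fun j : ℕ => 512 * C3 * M ^ 2 * η * (m:ℝ) ^ (-(2/3) : ℝ) *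
          ((j : ℝ) + 1) ^ (-(11/6) : ℝ)) ?_).trans ?_)
    · intro j; positivity
    have r2 : ∀ j ∈ Finset.range (m / 2 + 1), 16 * ((j:ℝ) + 1) *
        (512 * C3 * M ^ 2 * η * (m:ℝ) ^ (-(2/3) : ℝ) * ((j : ℝ) + 1) ^ (-(11/6) : ℝ)) =
        (8192 * C3 * M ^ 2 * η * (m:ℝ) ^ (-(2/3) : ℝ)) * ((j : ℝ) + 1) ^ (-(5/6) : ℝ) := by
      intro j _
      have hj : (0:ℝ) < (j:ℝ) + 1 := by positivity
      have : ((j:ℝ) + 1) ^ (-(5/6) : ℝ) = ((j:ℝ) + 1) * ((j : ℝ) + 1) ^ (-(11/6) : ℝ) := by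
        rw [← Real.rpow_one_add' hj.le (by norm_num)]
        norm_num
      rw [this]; ring
    rw [Finset.sum_congr rfl r2, ← Finset.mul_sum]
    have r3 := sum_pow (m / 2)
    have r4 : ((m / 2 : ℕ) : ℝ) + 1 ≤ m := by
      have : m / 2 + 1 ≤ m := by omega
      exact_mod_cast this
    have r5 : (((m / 2 : ℕ) : ℝ) + 1) ^ (1/6 : ℝ) ≤ (m:ℝ) ^ (1/6 : ℝ) :=
      Real.rpow_le_rpow (by positivity) r4 (by norm_num)
    have r6 : ∑ j ∈ Finset.range (m / 2 + 1), ((j:ℝ) + 1) ^ (-(5/6) : ℝ) ≤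
        6 * (m:ℝ) ^ (1/6 : ℝ) := by linarith
    have r7 : 0 ≤ 8192 * C3 * M ^ 2 * η * (m:ℝ) ^ (-(2/3) : ℝ) := by positivity
    refine (mul_le_mul_of_nonneg_left r6 r7).trans (le_of_eq ?_)
    have r8 : (m:ℝ) ^ (-(1/2) : ℝ) = (m:ℝ) ^ (-(2/3) : ℝ) * (m:ℝ) ^ (1/6 : ℝ) := by
      rw [← Real.rpow_add hm0]
      norm_num
    rw [r8, hK]; ring
  -- conclusion
  have q4 : K * M ^ 2 * η * (m:ℝ) ^ (-(1/2) : ℝ) ≤ M / 2 * (m:ℝ) ^ (-(5/4 : ℝ)) := by
    have s1 : (m:ℝ) ^ (-(1/2) : ℝ) = (m:ℝ) ^ (3/4 : ℝ) * (m:ℝ) ^ (-(5/4 : ℝ)) := by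
      rw [← Real.rpow_add hm0]
      norm_num
    have s2 : (m:ℝ) ^ (3/4 : ℝ) ≤ (n:ℝ) ^ (3/4 : ℝ) :=
      Real.rpow_le_rpow hm0.le (by exact_mod_cast hmn) (by norm_num)
    have s3 : η * (m:ℝ) ^ (3/4 : ℝ) ≤ 1 / (2 * K * M) :=
      (mul_le_mul_of_nonneg_left s2 h0).trans (hη.trans htK)
    have s4 : K * M ^ 2 * (η * (m:ℝ) ^ (3/4 : ℝ)) ≤ M / 2 := by
      have := mul_le_mul_of_nonneg_left s3 (show 0 ≤ K * M ^ 2 by positivity)
      refine this.trans (le_of_eq ?_)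
      field_simp
    rw [s1]
    have s5 := mul_le_mul_of_nonneg_right s4 (show 0 ≤ (m:ℝ) ^ (-(5/4 : ℝ)) by positivity)
    refine le_of_eq_of_le ?_ s5
    ring
  have q5 : 9 * C * (m:ℝ) ^ (-(5/4 : ℝ)) ≤ M / 2 * (m:ℝ) ^ (-(5/4 : ℝ)) :=
    mul_le_mul_of_nonneg_right (by linarith) (by positivity)
  calc PC true η S (fun F G => XE e m ↑F ↑G)
      ≤ M / 2 * (m:ℝ) ^ (-(5/4 : ℝ)) + M / 2 * (m:ℝ) ^ (-(5/4 : ℝ)) := by
        linarith [q1, q2, q3, q4, q5]
    _ = M * (m:ℝ) ^ (-(5/4 : ℝ)) := by ring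

end Pool.Agent.N833.EW
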